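import Pool.Agent.Lib_MP_1eadae_ag.GeoD

/-!
# The period conjecture as a generalised third Hilbert problem

`NashFn Qbar`: algebraic (Nash) functions on cubes over the field of algebraic numbers; by Ayoub's
compact presentation `PeriodConj (NashFn Qbar)` is Kontsevich's period conjecture.

The theorem: the period conjecture holds if and only if for any two positive rational functions
`f, g` over `ℚ` on the `n`-dimensional unit cube such that the bodies `{0 ≤ y ≤ f(x)}` and
`{0 ≤ y ≤ g(x)}` have the same volume, these bodies, multiplied by a suitable number of copies of the
body under the graph of `4/(1+x^2)` over `[0,1]` (area `π`), are stably congruent by rational volume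
preserving moves which change one coordinate of the cube and rescale the height. No Newton-Leibniz
rule and no algebraic change of variables is needed.
-/

set_option autoImplicit false

namespace Pool.Agent.Results.MP_1eadae_ag.GeometricForm

open MP1eadae

theorem result : PeriodConj (NashFn Qbar) ↔
    ∀ (n : ℕ) (f g : (ℕ → ℝ) → ℝ), f ∈ PosRat → g ∈ PosRat → DepR n f → DepR n g →
      MeasureTheory.volume (body n f) = MeasureTheory.volume (body n g) →
      ∃ m : ℕ, StablyCongruent
        (fun x => (∏ j ∈ Finset.range m, 4 / (1 + x (n + j) ^ 2)) * f x)
        (fun x => (∏ j ∈ Finset.range m, 4 / (1 + x (n + j) ^ 2)) * g x) :=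
  periodConj_iff_geometric

end Pool.Agent.Results.MP_1eadae_ag.GeometricForm
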