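import Pool.Agent.Lib_MP_1eadae_ag.T1Equiv

/-!
# Formal periods are presented by rational functions over ℚ(i) on cubes

Functions on cubes are complex valued functions of real sequences depending on finitely many
coordinates. For a class `C` of such functions `StokesSpan C` is the additive span of the
Newton-Leibniz elements `∂G/∂x_i - G|_{x_i=1} + G|_{x_i=0}` with `G, ∂G/∂x_i` in `C`.

* `NashFn Qbar`: algebraic (Nash) functions over the field of algebraic numbers,
* `RatFn k`: rational functions over `k` without poles on the cube.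

The theorem says that, up to factors `4/(1+x_j^2)` in new variables (integral `π`), the quotient
of Nash functions by their Newton-Leibniz relations is generated by rational functions over `ℚ(i)`,
that all relations between rational functions which follow from the Newton-Leibniz relations of Nash
functions already follow from those of rational functions, and that Kontsevich's period conjecture
in this presentation is equivalent to its restriction to rational functions over `ℚ` and their
rational Newton-Leibniz relations.
-/

set_option autoImplicit false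

namespace Pool.Agent.Results.MP_1eadae_ag.RationalPresentation

open MP1eadae

theorem result :
    (∀ (n : ℕ) (f : (ℕ → ℝ) → ℂ), f ∈ NashFn Qbar → DepLT n f →
      ∃ g ∈ RatFn Qi, DepLT (n + 1) g ∧
        (fun x => 2 * Complex.I * ((4 : ℂ) / (1 + (x n : ℂ) ^ 2)) * f x - g x) ∈
          StokesSpan (NashFn Qbar)) ∧
    (∀ (n : ℕ) (F : (ℕ → ℝ) → ℂ), F ∈ RatFn Qi → DepLT n F → F ∈ StokesSpan (NashFn Qbar) →
      (fun x => ((4 : ℂ) / (1 + (x n : ℂ) ^ 2)) * ((4 : ℂ) / (1 + (x (n + 1) : ℂ) ^ 2)) * F x) ∈
        StokesSpan (RatFn Qi)) ∧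
    (∀ (n : ℕ) (F : (ℕ → ℝ) → ℂ), F ∈ RatFn ℚ → DepLT n F → F ∈ StokesSpan (NashFn Qbar) →
      (fun x => ((4 : ℂ) / (1 + (x n : ℂ) ^ 2)) * ((4 : ℂ) / (1 + (x (n + 1) : ℂ) ^ 2)) * F x) ∈
        StokesSpan (RatFn ℚ)) ∧
    (∀ n : ℕ, (PeriodConjN n (NashFn Qbar) → PeriodConjN n (RatFn ℚ)) ∧
      (PeriodConjN (n + 1) (RatFn ℚ) → PeriodConjN n (NashFn Qbar))) ∧
    (PeriodConj (NashFn Qbar) ↔ PeriodConj (RatFn ℚ)) :=
  ⟨generation, relations, relationsQ, fun n => ⟨periodConjN_rat n, periodConjN_nash n⟩,
    periodConj_iff⟩

end Pool.Agent.Results.MP_1eadae_ag.RationalPresentation
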